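import Mathlib

set_option autoImplicit false

open MeasureTheory Set Topology

namespace Pool.Agent.H7.Equi

/-- a compact set with empty interior and positive measure -/
lemma exists_fat : ∃ B : Set ℝ, IsCompact B ∧ interior B = ∅ ∧ 0 < volume B := by
  have h0 : volume (range ((↑) : ℚ → ℝ)) = 0 := (countable_range _).measure_zero _
  have h1 : volume (range ((↑) : ℚ → ℝ)) < 1 := by rw [h0]; exact zero_lt_one
  obtain ⟨U, hU, hUo, hU1⟩ := Set.exists_isOpen_lt_of_lt _ _ h1
  refine ⟨Icc 0 1 \ U, isCompact_Icc.diff hUo, ?_, ?_⟩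
  · rw [eq_empty_iff_forall_notMem]
    intro x hx
    have hd : Dense (range ((↑) : ℚ → ℝ)) := Rat.isDenseEmbedding_coe_real.dense
    obtain ⟨y, hy1, hy2⟩ := hd.inter_open_nonempty _ isOpen_interior ⟨x, hx⟩
    exact (interior_subset hy1).2 (hU hy2)
  · have h2 : volume (Icc (0:ℝ) 1) ≤ volume (Icc (0:ℝ) 1 \ U) + volume U := by
      refine (measure_mono ?_).trans (measure_union_le _ _)
      intro x hx
      by_cases h : x ∈ U
      · exact Or.inr h
      · exact Or.inl ⟨hx, h⟩
    rw [Real.volume_Icc, sub_zero, ENNReal.ofReal_one] at h2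
    by_contra hcon
    push Not at hcon
    rw [nonpos_iff_eq_zero] at hcon
    rw [hcon, zero_add] at h2
    exact absurd (h2.trans_lt hU1) (lt_irrefl _)

lemma preimage_interior {f : ℝ → ℝ} (hf : Isometry f) {B : Set ℝ} (hB : interior B = ∅) :
    interior (f ⁻¹' B) = ∅ := by
  rw [eq_empty_iff_forall_notMem]
  intro x hx
  obtain ⟨ε, hε, hball⟩ := Metric.isOpen_iff.1 isOpen_interior x hx
  have hsub : ∀ y ∈ Icc x (x + ε / 2), f y ∈ B := by
    intro y hy
    have : y ∈ Metric.ball x ε := by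
      rw [Metric.mem_ball, Real.dist_eq, abs_of_nonneg (by linarith [hy.1])]
      linarith [hy.2]
    have h2 : y ∈ f ⁻¹' B := interior_subset (hball this)
    exact h2
  have hne : f x ≠ f (x + ε / 2) := fun h => by
    have := hf.injective h
    linarith
  have hcont : ContinuousOn f (Icc x (x + ε / 2)) := hf.continuous.continuousOn
  have hle : x ≤ x + ε / 2 := by linarith
  have key : ∃ a b : ℝ, a < b ∧ Icc a b ⊆ f '' Icc x (x + ε / 2) := by
    rcases lt_or_gt_of_ne hne with h | h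
    · exact ⟨_, _, h, intermediate_value_Icc hle hcont⟩
    · exact ⟨_, _, h, intermediate_value_Icc' hle hcont⟩
  obtain ⟨a, b, hab, hs⟩ := key
  have hIB : Ioo a b ⊆ B := by
    intro z hz
    obtain ⟨y, hy, rfl⟩ := hs (Ioo_subset_Icc_self hz)
    exact hsub y hy
  have : Ioo a b ⊆ interior B := interior_maximal hIB isOpen_Ioo
  rw [hB] at this
  exact this (show (a + b) / 2 ∈ Ioo a b from ⟨by linarith, by linarith⟩)

theorem main :
    ¬ (∀ A B : Set ℝ, NullMeasurableSet A volume → NullMeasurableSet B volume →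
      Bornology.IsBounded A → Bornology.IsBounded B → volume A = volume B →
      ∃ E₁ E₂ : Set ℝ, volume E₁ = 0 ∧ volume E₂ = 0 ∧
        ∃ (n : ℕ) (P : Fin n → Set ℝ) (f : Fin n → ℝ → ℝ),
          (∀ i, NullMeasurableSet (P i) volume) ∧
          (∀ i, Isometry (f i)) ∧
          Pairwise (fun i j => Disjoint (P i) (P j)) ∧
          Pairwise (fun i j => Disjoint (f i '' P i) (f j '' P j)) ∧
          (⋃ i, P i) = A \ E₁ ∧
          (⋃ i, f i '' P i) = B \ E₂) := by
  intro h
  obtain ⟨B, hBc, hBi, hBpos⟩ := exists_fat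
  have hBfin : volume B ≠ ⊤ := hBc.measure_lt_top.ne
  set a : ℝ := (volume B).toReal with ha
  have ha0 : 0 < a := ENNReal.toReal_pos hBpos.ne' hBfin
  have hvol : volume (Icc 0 a) = volume B := by
    rw [Real.volume_Icc, sub_zero, ha, ENNReal.ofReal_toReal hBfin]
  obtain ⟨E₁, E₂, hE₁, -, n, P, f, -, hf, -, -, hP, hfP⟩ := h (Icc 0 a) B
    measurableSet_Icc.nullMeasurableSet hBc.isClosed.measurableSet.nullMeasurableSet
    (Metric.isBounded_Icc 0 a) hBc.isBounded hvol
  -- the open dense set of points sent outside `B` by every `f i`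
  have hdense : Dense (⋂ i, (f i ⁻¹' B)ᶜ) := by
    refine dense_iInter_of_isOpen (fun i => ?_) (fun i => ?_)
    · exact (hBc.isClosed.preimage (hf i).continuous).isOpen_compl
    · rw [← interior_eq_empty_iff_dense_compl]
      exact preimage_interior (hf i) hBi
  have hopen : IsOpen (⋂ i, (f i ⁻¹' B)ᶜ) :=
    isOpen_iInter_of_finite fun i => (hBc.isClosed.preimage (hf i).continuous).isOpen_compl
  obtain ⟨x, hx1, hx2⟩ := hdense.inter_open_nonempty (Ioo 0 a) isOpen_Ioo ⟨a / 2, by constructor <;> linarith⟩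
  have hsub : Ioo 0 a ∩ (⋂ i, (f i ⁻¹' B)ᶜ) ⊆ E₁ := by
    rintro y ⟨hy1, hy2⟩
    by_contra hy
    have hyA : y ∈ ⋃ i, P i := by
      rw [hP]; exact ⟨Ioo_subset_Icc_self hy1, hy⟩
    obtain ⟨i, hi⟩ := mem_iUnion.1 hyA
    have h1 : f i y ∈ ⋃ i, f i '' P i := mem_iUnion.2 ⟨i, y, hi, rfl⟩
    rw [hfP] at h1
    exact (mem_iInter.1 hy2 i) h1.1
  have hpos : 0 < volume (Ioo 0 a ∩ (⋂ i, (f i ⁻¹' B)ᶜ)) :=
    (isOpen_Ioo.inter hopen).measure_pos _ ⟨x, hx1, hx2⟩
  have := hpos.trans_le (measure_mono hsub)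
  rw [hE₁] at this
  exact absurd this (lt_irrefl _)

end Pool.Agent.H7.Equi
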